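import Pool.Agent.N242.NT.Stm

/-!
# Project NT, part FLA (helper713, for helper242): flatness at nonsingular points
-/

set_option autoImplicit false

open Metric Set Filter Topology

namespace Pool.Agent.N713.NT.FLA

open Pool.Agent.N242.NT

universe u

theorem t_FLA (h : S_SEP.{u}) : S_FLA.{u} := by
  classical
  intro X _ _ B hB b hb z hz hS
  unfold Sing at hS
  push Not at hS
  obtain ⟨ρ, hρ, hN⟩ := hS
  obtain ⟨ρ', ⟨h1, h2⟩, h3⟩ : ∃ ρ' : ℝ, ((∀ b' ∈ {b | b ∈ B ∧ ‖z - b.1‖ < b.2 + ρ},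
      b'.2 < ‖z - b'.1‖ → ρ' ≤ ‖z - b'.1‖ - b'.2) ∧ ρ' ≤ ρ) ∧ 0 < ρ' := by
    have e1 : ∀ᶠ ρ' in 𝓝[>] (0:ℝ), ∀ b' ∈ {b | b ∈ B ∧ ‖z - b.1‖ < b.2 + ρ},
        b'.2 < ‖z - b'.1‖ → ρ' ≤ ‖z - b'.1‖ - b'.2 := by
      rw [Filter.eventually_all_finite hN]
      intro b' _
      by_cases hb' : b'.2 < ‖z - b'.1‖
      · filter_upwards [mem_nhdsWithin_of_mem_nhds (Iic_mem_nhds (sub_pos.2 hb'))] with r hr _
        exact hr
      · exact Eventually.of_forall fun r hr => absurd hr hb'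
    have e2 : ∀ᶠ ρ' in 𝓝[>] (0:ℝ), ρ' ≤ ρ := mem_nhdsWithin_of_mem_nhds (Iic_mem_nhds hρ)
    exact ((e1.and e2).and self_mem_nhdsWithin).exists
  have hsep := fun b' (hb' : b' ∈ B) (hne : b ≠ b') => h X B hB b hb b' hb' hne
  choose! f β hf1 hf2 hf3 hf4 using hsep
  refine ⟨hN.toFinset.image f, ρ' / 2, by positivity, fun v hv hvε => ?_⟩
  have key : ∀ s : ℝ, 0 < s → s * ‖b.1 - z‖ < ρ' / 2 → ‖z + v + s • (b.1 - z) - b.1‖ ≤ b.2 := by
    intro s hs hs2
    obtain ⟨b'', hb'', hy⟩ := hB.cov (z + v + s • (b.1 - z))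
    have hyz : ‖z - (z + v + s • (b.1 - z))‖ < ρ' := by
      have e1 : z - (z + v + s • (b.1 - z)) = -(v + s • (b.1 - z)) := by abel
      rw [e1, norm_neg]
      have e2 := norm_add_le v (s • (b.1 - z))
      rw [norm_smul, Real.norm_of_nonneg hs.le] at e2
      linarith
    have hzb : ‖z - b''.1‖ < b''.2 + ρ' := by
      have e1 : z - b''.1 = (z - (z + v + s • (b.1 - z))) + (z + v + s • (b.1 - z) - b''.1) := by
        abel
      rw [e1]
      have e2 := norm_add_le (z - (z + v + s • (b.1 - z))) (z + v + s • (b.1 - z) - b''.1)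
      linarith
    have hmem : b'' ∈ {b | b ∈ B ∧ ‖z - b.1‖ < b.2 + ρ} := ⟨hb'', by linarith⟩
    have hz'' : ‖z - b''.1‖ ≤ b''.2 := by
      by_contra hcon
      have := h1 b'' hmem (not_le.1 hcon)
      linarith
    by_cases hne : b = b''
    · rw [← hne] at hy
      exact hy
    · exfalso
      have a1 := hf1 b'' hb'' hne z hz
      have a2 := hf2 b'' hb'' hne z hz''
      have a3 := hf2 b'' hb'' hne _ hy
      have a4 := hf3 b'' hb'' hne
      have a5 : f b'' v = 0 := hv _ (Finset.mem_image_of_mem f (hN.mem_toFinset.2 hmem))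
      rw [map_add, map_add, a5, map_smul, map_sub, smul_eq_mul] at a3
      have a6 : s * (f b'' b.1 - f b'' z) < 0 := mul_neg_of_pos_of_neg hs (by linarith)
      linarith
  have ht : Tendsto (fun s : ℝ => ‖z + v + s • (b.1 - z) - b.1‖) (𝓝[>] 0)
      (𝓝 ‖z + v - b.1‖) := by
    have hc : Continuous fun s : ℝ => ‖z + v + s • (b.1 - z) - b.1‖ := by fun_prop
    have e1 := hc.tendsto 0
    simp only [zero_smul, add_zero] at e1
    exact e1.mono_left nhdsWithin_le_nhds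
  refine le_of_tendsto ht ?_
  have hc2 : Tendsto (fun s : ℝ => s * ‖b.1 - z‖) (𝓝[>] 0) (𝓝 0) := by
    have hc : Continuous fun s : ℝ => s * ‖b.1 - z‖ := by fun_prop
    have e1 := hc.tendsto 0
    simp only [zero_mul] at e1
    exact e1.mono_left nhdsWithin_le_nhds
  filter_upwards [self_mem_nhdsWithin, hc2.eventually_lt_const (by positivity : 0 < ρ' / 2)]
    with s hs hs2
  exact key s hs hs2

end Pool.Agent.N713.NT.FLA
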